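import Pool.Agent.T9h78.Sing.Spec

set_option autoImplicit false

namespace Pool.Agent.T9h12.Sing

open Matrix BigOperators Polynomial
open Pool.Agent.T9h78.Sing

universe u

/-!
# Piece (B): the generic rank is the rank at an element of large degree
-/

/-- linearly independent rows -/
theorem exists_rows {K : Type*} [Field K] {m n : ℕ} (A : Matrix (Fin m) (Fin n) K) (r : ℕ)
    (hr : A.rank = r) :
    ∃ f : Fin r → Fin m, (A.submatrix f id).rank = r ∧ LinearIndependent K (A.submatrix f id).row := by
  obtain ⟨f, hf1, hf2, hf3⟩ := Submodule.exists_fun_fin_finrank_span_eq K (Set.range A.row)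
  have h1 : Module.finrank K (Submodule.span K (Set.range A.row)) = r := by
    rw [← A.rank_eq_finrank_span_row, hr]
  choose g hg using hf1
  subst h1
  refine ⟨g, ?_⟩
  have h2 : (A.submatrix g id).row = f := by
    funext i
    exact hg i
  have h3 : LinearIndependent K (A.submatrix g id).row := by rw [h2]; exact hf3
  exact ⟨by rw [h3.rank_matrix, Fintype.card_fin], h3⟩

/-- a nonzero minor of maximal size -/
theorem exists_minor {K : Type*} [Field K] {m n : ℕ} (A : Matrix (Fin m) (Fin n) K) (r : ℕ)
    (hr : A.rank = r) :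
    ∃ (f : Fin r → Fin m) (g : Fin r → Fin n), (A.submatrix f g).det ≠ 0 := by
  obtain ⟨f, hf1, hf2⟩ := exists_rows A r hr
  obtain ⟨g, hg1, hg2⟩ := exists_rows (A.submatrix f id)ᵀ r (by rw [rank_transpose, hf1])
  refine ⟨f, g, ?_⟩
  have h1 := linearIndependent_rows_iff_isUnit.1 hg2
  have h2 : ((A.submatrix f id)ᵀ.submatrix g id) = (A.submatrix f g)ᵀ := rfl
  rw [h2, isUnit_transpose, isUnit_iff_isUnit_det, isUnit_iff_ne_zero] at h1
  exact h1

theorem le_rank_of_minor {K : Type*} [Field K] {m n : ℕ} (A : Matrix (Fin m) (Fin n) K) (r : ℕ)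
    (f : Fin r → Fin m) (g : Fin r → Fin n) (h : (A.submatrix f g).det ≠ 0) : r ≤ A.rank := by
  have h1 := rank_submatrix_le A f g
  rw [rank_of_det_ne_zero h, Fintype.card_fin] at h1
  exact h1

/-- the polynomial pencil -/
noncomputable def pol {F : Type*} [Field F] {k : ℕ} (S : Matrix (Fin k) (Fin k) F) :
    Matrix (Fin k) (Fin k) F[X] := (X : F[X]) • Sᵀ.map C + S.map C

theorem stRank : StRank.{u} := by
  intro F L _ _ _ s k hs hk S
  have e1 : (pol S).map (aeval s : F[X] →ₐ[F] L) = pen s S := by
    ext a b
    simp only [pol, pen, Matrix.map_apply, Matrix.add_apply, Matrix.smul_apply, transpose_apply, smul_eq_mul, map_add,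
      map_mul, aeval_X, aeval_C]
    ring
  let φ : F[X] →+* LaurentSeries F :=
    (HahnSeries.ofPowerSeries ℤ F).comp (coeToPowerSeries.ringHom (R := F))
  have hφ : Function.Injective φ :=
    HahnSeries.ofPowerSeries_injective.comp (coe_injective F)
  have e2 : (pol S).map φ = pen (tt F) S := by
    have e3 : φ X = tt F := by
      simp [φ, tt]
    have e4 : ∀ c : F, φ (C c) = algebraMap F (LaurentSeries F) c := by
      intro c
      show (HahnSeries.ofPowerSeries ℤ F) (coeToPowerSeries.ringHom (R := F) (C c)) = _
      rw [coeToPowerSeries.ringHom_apply, coe_C, HahnSeries.ofPowerSeries_C,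
        LaurentSeries.algebraMap_apply]
    refine Matrix.ext fun a b => ?_
    simp only [pol, pen, Matrix.map_apply, Matrix.add_apply, Matrix.smul_apply, transpose_apply, smul_eq_mul, map_add,
      map_mul, e3, e4]
    ring
  apply le_antisymm
  · obtain ⟨r, hr⟩ : ∃ r, (pen s S).rank = r := ⟨_, rfl⟩
    obtain ⟨f, g, h⟩ := exists_minor (pen s S) r hr
    rw [hr]
    refine le_rank_of_minor _ _ f g ?_
    rw [← e1, submatrix_map] at h
    rw [← e2, submatrix_map]
    have h1 : ((pol S).submatrix f g).det ≠ 0 := by
      intro h0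
      apply h
      have := (RingHom.map_det (aeval s : F[X] →ₐ[F] L).toRingHom ((pol S).submatrix f g))
      rw [h0, map_zero] at this
      exact this.symm
    intro h0
    apply h1
    apply hφ
    rw [map_zero, RingHom.map_det]
    exact h0
  · obtain ⟨r, hr⟩ : ∃ r, grk S = r := ⟨_, rfl⟩
    obtain ⟨f, g, h⟩ := exists_minor (pen (tt F) S) r hr
    have hrk : r ≤ k := by rw [← hr]; exact rank_le_width _
    rw [hr]
    refine le_rank_of_minor _ _ f g ?_
    rw [← e2, submatrix_map] at h
    rw [← e1, submatrix_map]
    set D := ((pol S).submatrix f g).det with hD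
    have h1 : D ≠ 0 := by
      intro h0
      apply h
      have := RingHom.map_det φ ((pol S).submatrix f g)
      rw [← hD, h0, map_zero] at this
      exact this.symm
    have h2 : D.natDegree ≤ k := by
      have h3 : (pol S).submatrix f g = (X : F[X]) • (Sᵀ.submatrix f g).map C + (S.submatrix f g).map C := rfl
      rw [hD, h3]
      refine (natDegree_det_X_add_C_le _ _).trans ?_
      rw [Fintype.card_fin]
      exact hrk
    intro h0
    have h3 : aeval s D = 0 := by
      have := (RingHom.map_det (aeval s : F[X] →ₐ[F] L).toRingHom ((pol S).submatrix f g))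
      rw [← hD] at this
      exact this.trans h0
    have h4 := minpoly.degree_le_of_ne_zero F s h1 h3
    have h5 := natDegree_le_natDegree h4
    omega

end Pool.Agent.T9h12.Sing
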