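import Pool.Agent.T9h78.Sing.Spec

set_option autoImplicit false

/-!
# Piece (R5): the shift
-/

namespace Pool.Agent.T9h12.Sing

open Matrix BigOperators
open Pool.Agent.T9h78.Sing

universe u v

section
variable {F : Type u} [Field F] {k : ℕ}

/-- row `b` gets `c * l` -/
def sh (b : Fin k) (l : Fin k → F) (c : F) (S : Matrix (Fin k) (Fin k) F) :
    Matrix (Fin k) (Fin k) F :=
  fun a d => S a d + if a = b then c * l d else 0

theorem sh_sh (b : Fin k) (l : Fin k → F) (c e : F) (S : Matrix (Fin k) (Fin k) F) :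
    sh b l e (sh b l c S) = sh b l (c + e) S := by
  refine Matrix.ext fun a d => ?_
  unfold sh
  split_ifs <;> ring

theorem sh_zero (b : Fin k) (l : Fin k → F) (S : Matrix (Fin k) (Fin k) F) :
    sh b l 0 S = S := by
  refine Matrix.ext fun a d => ?_
  unfold sh
  split_ifs <;> ring

/-- the shift as a permutation -/
def shE (b : Fin k) (l : Fin k → F) (c : F) :
    Matrix (Fin k) (Fin k) F ≃ Matrix (Fin k) (Fin k) F where
  toFun := sh b l c
  invFun := sh b l (-c)
  left_inv S := by rw [sh_sh, add_neg_cancel, sh_zero]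
  right_inv S := by rw [sh_sh, neg_add_cancel, sh_zero]

theorem pen_sh {K : Type v} [CommRing K] [Algebra F K] (t : K) (b : Fin k) (l : Fin k → F) (c : F)
    (S : Matrix (Fin k) (Fin k) F) :
    pen t (sh b l c S) = pen t S +
      vecMulVec (Pi.single b (algebraMap F K c)) (fun i => algebraMap F K (l i)) +
      vecMulVec (fun i => t * algebraMap F K c * algebraMap F K (l i)) (Pi.single b (1 : K)) := by
  refine Matrix.ext fun a d => ?_
  simp only [pen, sh, Matrix.add_apply, vecMulVec_apply, Pi.single_apply, map_add]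
  by_cases h1 : a = b <;> by_cases h2 : d = b <;> simp [h1, h2] <;> ring

theorem ut_sh {b : Fin k} {l : Fin k → F} (hmin : ∀ d < b, l d = 0) (c : F)
    {S : Matrix (Fin k) (Fin k) F} (h : UT S) : UT (sh b l c S) := by
  intro a d hd
  unfold sh
  rw [h a d hd]
  split_ifs with h1
  · rw [hmin d (h1 ▸ hd)]; ring
  · ring

theorem ut_sh_iff {b : Fin k} {l : Fin k → F} (hmin : ∀ d < b, l d = 0) (c : F)
    {S : Matrix (Fin k) (Fin k) F} : UT (sh b l c S) ↔ UT S := by
  refine ⟨fun h => ?_, ut_sh hmin c⟩
  have := ut_sh hmin (-c) h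
  rwa [sh_sh, add_neg_cancel, sh_zero] at this

theorem spe_sh (b : Fin k) {l : Fin k → F} (c : F) {S : Matrix (Fin k) (Fin k) F}
    (h : Spe S l) : Spe (sh b l c S) l := by
  obtain ⟨μ, h1, h2⟩ := h
  set L : Fin k → PowerSeries F := fun i => algebraMap F (PowerSeries F) (l i) with hL
  set C : PowerSeries F := algebraMap F (PowerSeries F) c with hC
  have hu : IsUnit (1 + PowerSeries.X * C * μ b : PowerSeries F) := by
    rw [PowerSeries.isUnit_iff_constantCoeff]
    simp
  obtain ⟨w, hw⟩ := hu.exists_right_inv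
  refine ⟨w • μ, ?_, ?_⟩
  · rw [mulVec_smul, pen_sh, add_mulVec, add_mulVec, h1]
    have e1 : vecMulVec (Pi.single b C) L *ᵥ μ = 0 := by
      funext i
      simp only [mulVec, dotProduct, vecMulVec_apply, mul_assoc, ← Finset.mul_sum]
      have : ∑ j, L j * μ j = 0 := h2
      rw [this, mul_zero]
      rfl
    have e2 : vecMulVec (fun i => PowerSeries.X * C * L i) (Pi.single b (1 : PowerSeries F)) *ᵥ μ =
        fun i => PowerSeries.X * C * μ b * L i := by
      funext i
      simp only [mulVec, dotProduct, vecMulVec_apply, Pi.single_apply, mul_ite, mul_one, mul_zero,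
        ite_mul, zero_mul, Finset.sum_ite_eq', Finset.mem_univ, if_true]
      ring
    rw [e1, e2]
    funext i
    simp only [Pi.smul_apply, Pi.add_apply, Pi.zero_apply, smul_eq_mul]
    calc w * (L i + 0 + PowerSeries.X * C * μ b * L i)
        = ((1 + PowerSeries.X * C * μ b) * w) * L i := by ring
      _ = L i := by rw [hw, one_mul]
  · rw [dotProduct_smul, h2, smul_zero]

theorem spe_sh_iff (b : Fin k) {l : Fin k → F} (c : F) {S : Matrix (Fin k) (Fin k) F} :
    Spe (sh b l c S) l ↔ Spe S l := by
  refine ⟨fun h => ?_, spe_sh b c⟩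
  have := spe_sh b (-c) h
  rwa [sh_sh, add_neg_cancel, sh_zero] at this

theorem alg_eq (c : F) : (HahnSeries.ofPowerSeries ℤ F) (algebraMap F (PowerSeries F) c) =
    algebraMap F (LaurentSeries F) c := by
  rw [LaurentSeries.algebraMap_apply, PowerSeries.algebraMap_apply, Algebra.algebraMap_self,
    RingHom.id_apply, HahnSeries.ofPowerSeries_C]

theorem pen_map (S : Matrix (Fin k) (Fin k) F) :
    (pen (PowerSeries.X : PowerSeries F) S).map (HahnSeries.ofPowerSeries ℤ F) = pen (tt F) S := by
  refine Matrix.ext fun a b => ?_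
  simp only [pen, Matrix.map_apply, map_add, map_mul, alg_eq]
  rfl

theorem grk_le (hsym : StSym.{u}) (b : Fin k) {l : Fin k → F} (c : F)
    {S : Matrix (Fin k) (Fin k) F} (h : Spe S l) : grk (sh b l c S) ≤ grk S := by
  obtain ⟨μ, h1, h2⟩ := h
  set φ := HahnSeries.ofPowerSeries ℤ F with hφ
  set P := pen (tt F) S with hP
  set L : Fin k → LaurentSeries F := fun i => algebraMap F (LaurentSeries F) (l i) with hL
  have m1 : P *ᵥ (fun i => φ (μ i)) = L := by
    have h3 : ∀ i, φ ((pen (PowerSeries.X : PowerSeries F) S *ᵥ μ) i) = L i := by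
      intro i
      rw [h1]
      exact alg_eq (l i)
    rw [hP, ← pen_map]
    funext i
    rw [← h3 i]
    simp only [mulVec, dotProduct, Matrix.map_apply, map_sum, map_mul]
    rfl
  have m2 : L ⬝ᵥ (fun i => φ (μ i)) = 0 := by
    have h3 := congrArg φ h2
    rw [map_zero] at h3
    rw [← h3]
    simp only [dotProduct, map_sum, map_mul]
    refine Finset.sum_congr rfl fun i _ => ?_
    rw [alg_eq]
  obtain ⟨ν, hν⟩ := (hsym F k S l).1 ⟨_, m1⟩
  set C : LaurentSeries F := algebraMap F (LaurentSeries F) c with hC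
  have key : pen (tt F) (sh b l c S) =
      (1 + vecMulVec (Pi.single b C) ν) * P *
        (1 + vecMulVec (fun i => tt F * C * φ (μ i)) (Pi.single b 1)) := by
    rw [pen_sh, Matrix.add_mul 1, Matrix.one_mul, vecMulVec_mul, hν, Matrix.mul_add, Matrix.mul_one,
      mul_vecMulVec]
    congr 1
    congr 1
    have e0 : (fun i => tt F * C * φ (μ i)) = (tt F * C) • (fun i => φ (μ i)) := rfl
    rw [e0, mulVec_smul, add_mulVec, m1]
    have e1 : vecMulVec (Pi.single b C) L *ᵥ (fun i => φ (μ i)) = 0 := by
      funext i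
      simp only [mulVec, dotProduct, vecMulVec_apply, mul_assoc, ← Finset.mul_sum]
      have : ∑ j, L j * φ (μ j) = 0 := m2
      rw [this, mul_zero]
      rfl
    rw [e1, add_zero]
    rfl
  unfold grk
  rw [key]
  exact (rank_mul_le_left _ _).trans (rank_mul_le_right _ _)

theorem grk_sh (hsym : StSym.{u}) (b : Fin k) {l : Fin k → F} (c : F)
    {S : Matrix (Fin k) (Fin k) F} (h : Spe S l) : grk (sh b l c S) = grk S := by
  refine le_antisymm (grk_le hsym b c h) ?_
  have := grk_le hsym b (-c) (spe_sh b c h)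
  rwa [sh_sh, add_neg_cancel, sh_zero] at this

theorem sum_fw [Fintype F] : ∑ s : F, fw s = 0 := by
  classical
  have h1 : ∀ s : F, fw s = (if s = 0 then (Fintype.card F : ℂ) else 0) - 1 := by
    intro s
    unfold fw
    by_cases h : s = 0
    · rw [if_pos h, if_pos h]
    · rw [if_neg h, if_neg h]; ring
  rw [Finset.sum_congr rfl fun s _ => h1 s, Finset.sum_sub_distrib, Finset.sum_ite_eq']
  simp

end

open scoped Classical in
theorem stShift_of (hsym : StSym.{u}) : StShift.{u} := by
  intro F _ _ k x l hl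
  obtain ⟨b, hb, hmin⟩ : ∃ b, l b ≠ 0 ∧ ∀ d < b, l d = 0 := by
    have hs : (Finset.univ.filter fun a => l a ≠ 0).Nonempty := by
      by_contra h
      rw [Finset.not_nonempty_iff_eq_empty, Finset.filter_eq_empty_iff] at h
      exact hl (funext fun a => not_not.1 (h (Finset.mem_univ a)))
    refine ⟨(Finset.univ.filter fun a => l a ≠ 0).min' hs,
      (Finset.mem_filter.1 (Finset.min'_mem _ hs)).2, fun d hd => ?_⟩
    by_contra h
    exact absurd (Finset.min'_le _ d (Finset.mem_filter.2 ⟨Finset.mem_univ _, h⟩)) (not_le.2 hd)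
  set g : Matrix (Fin k) (Fin k) F → ℂ := fun S =>
    if UT S ∧ Spe S l then wt S * x ^ grk S else 0 with hg
  have h1 : ∀ c : F, ∑ S, g (sh b l c S) = ∑ S, g S := fun c =>
    (shE b l c).sum_comp g
  have h2 : ∀ S, ∑ c : F, g (sh b l c S) = 0 := by
    intro S
    by_cases hS : UT S ∧ Spe S l
    · have h3 : ∀ c : F, g (sh b l c S) =
          (x ^ grk S * ∏ a ∈ Finset.univ.erase b, fw (S a a)) * fw (S b b + c * l b) := by
        intro c
        simp only [hg]
        rw [if_pos ⟨ut_sh hmin c hS.1, spe_sh b c hS.2⟩, grk_sh hsym b c hS.2]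
        have h4 : wt (sh b l c S) = fw (S b b + c * l b) * ∏ a ∈ Finset.univ.erase b, fw (S a a) := by
          unfold wt
          rw [← Finset.mul_prod_erase Finset.univ _ (Finset.mem_univ b)]
          congr 1
          · unfold sh
            rw [if_pos rfl]
          · refine Finset.prod_congr rfl fun a ha => ?_
            unfold sh
            rw [if_neg (Finset.ne_of_mem_erase ha), add_zero]
        rw [h4]
        ring
      rw [Finset.sum_congr rfl fun c _ => h3 c, ← Finset.mul_sum]
      have h5 : ∑ c : F, fw (S b b + c * l b) = ∑ s : F, fw s :=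
        ((Equiv.mulRight₀ (l b) hb).trans (Equiv.addLeft (S b b))).sum_comp fw
      rw [h5, sum_fw, mul_zero]
    · refine Finset.sum_eq_zero fun c _ => ?_
      simp only [hg]
      rw [if_neg]
      rw [ut_sh_iff hmin c, spe_sh_iff b c]
      exact hS
  have h6 : (Fintype.card F : ℂ) * ∑ S, g S = 0 := by
    have h7 : ∑ c : F, ∑ S, g (sh b l c S) = Fintype.card F * ∑ S, g S := by
      rw [Finset.sum_congr rfl fun c _ => h1 c, Finset.sum_const, Finset.card_univ, nsmul_eq_mul]
    rw [← h7, Finset.sum_comm]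
    exact Finset.sum_eq_zero fun S _ => h2 S
  rcases mul_eq_zero.1 h6 with h | h
  · exact absurd h (by exact_mod_cast Fintype.card_ne_zero)
  · exact h

theorem stShift : StBord.{u} → StSym.{u} → StShift.{u} := fun _ => stShift_of

end Pool.Agent.T9h12.Sing
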